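import Pool.Agent.Run7.h379.Main

set_option autoImplicit false

namespace Pool.Agent.Results.MP_5b12c2_an.CountableLeafSections

open Set

/-- Open discrete maps in dimension at least three for which the image of the branch set lies in
countably many closed sets, each meeting comeagrely (or just non-meagrely) many leaves of a
foliation by surfaces in a countable set: the branch set is not totally disconnected, its covering
dimension is at least one if `n = 3`, and if the sections with all leaves are totally disconnected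
then the branch set contains a cell of dimension `n - 2` on which the map is injective, so its
covering dimension is at least `n - 2`. -/
theorem result (n : ℕ) (hn : 3 ≤ n) (D : Set (EuclideanSpace ℝ (Fin n)))
    (f : EuclideanSpace ℝ (Fin n) → EuclideanSpace ℝ (Fin n))
    (hD : IsOpen D) (hf : ContinuousOn f D)
    (hopen : ∀ U : Set (EuclideanSpace ℝ (Fin n)), IsOpen U → U ⊆ D → IsOpen (f '' U))
    (hdisc : ∀ x ∈ D, ∃ ε > (0 : ℝ), ∀ y ∈ D, dist y x < ε → f y = f x → y = x)
    (B : Set (EuclideanSpace ℝ (Fin n)))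
    (hB : B = {x | x ∈ D ∧ ∀ U : Set (EuclideanSpace ℝ (Fin n)),
      IsOpen U → x ∈ U → U ⊆ D → ¬ Set.InjOn f U})
    (hne : B.Nonempty)
    -- closed sets covering the image of the branch set, each in the source of a chart
    (A : ℕ → Set (EuclideanSpace ℝ (Fin n))) (hA : ∀ i, IsClosed (A i))
    (hcov : f '' B ⊆ ⋃ i, A i)
    (φ : ℕ → OpenPartialHomeomorph (EuclideanSpace ℝ (Fin n))
      (EuclideanSpace ℝ (Fin (n - 2)) × (ℝ × ℝ))) (hφ : ∀ i, A i ⊆ (φ i).source)
    -- non-meagrely many leaves in every open set of leaves have a countable section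
    (hcount : ∀ K ⊆ B, IsCompact K → ∀ i, ∀ O : Set (EuclideanSpace ℝ (Fin (n - 2))),
      IsOpen O → O.Nonempty →
        ¬ IsMeagre {y | y ∈ O ∧ {p | p ∈ f '' K ∩ A i ∧ (φ i p).1 = y}.Countable}) :
    ¬ IsTotallyDisconnected B ∧
    ((∀ K ⊆ B, IsCompact K → ∀ i y,
        IsTotallyDisconnected {p | p ∈ f '' K ∩ A i ∧ (φ i p).1 = y}) →
      ∃ (O : Set (EuclideanSpace ℝ (Fin (n - 2))))
        (k : EuclideanSpace ℝ (Fin (n - 2)) → EuclideanSpace ℝ (Fin n)),
        IsOpen O ∧ O.Nonempty ∧ ContinuousOn k O ∧ (∀ y ∈ O, k y ∈ B) ∧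
        Set.InjOn (fun y => f (k y)) O) ∧
    ((n = 3 ∨ ∀ K ⊆ B, IsCompact K → ∀ i y,
        IsTotallyDisconnected {p | p ∈ f '' K ∩ A i ∧ (φ i p).1 = y}) →
      ¬ ∀ (m : ℕ) (U : Fin m → Set (EuclideanSpace ℝ (Fin n))),
          (∀ i, IsOpen (U i)) → B ⊆ ⋃ i, U i →
          ∃ V : Fin m → Set (EuclideanSpace ℝ (Fin n)),
            (∀ i, IsOpen (V i)) ∧ (∀ i, V i ⊆ U i) ∧ B ⊆ ⋃ i, V i ∧
            ∀ x ∈ B, Set.ncard {i : Fin m | x ∈ V i} ≤ n - 2) := by
  have hOD : Run7.h379.OD D f := ⟨hD, hf, hopen, hdisc⟩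
  have hBr : B = Run7.h379.Br D f := hB
  clear hB
  subst hBr
  have hn2 : n = n - 2 + 2 := by omega
  have h1 : ¬ IsTotallyDisconnected (Run7.h379.Br D f) := by
    intro htd
    obtain ⟨O, k, hO, hOne, hk, hkB, hinj⟩ := Run7.h379.main hn2 hOD hne A hA hcov φ hφ
      (Or.inl htd) hcount
    obtain ⟨y, hy⟩ := hOne
    obtain ⟨ε, hε, hball⟩ := Metric.isOpen_iff.1 hO y hy
    obtain ⟨v, hv⟩ : ∃ v : EuclideanSpace ℝ (Fin (n - 2)), ‖v‖ = ε / 2 := by
      refine ⟨EuclideanSpace.single (⟨0, by omega⟩ : Fin (n - 2)) (ε / 2), ?_⟩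
      rw [PiLp.norm_single, Real.norm_eq_abs, abs_of_pos (by positivity)]
    obtain ⟨a, ha, b, hb, hab⟩ : ∃ a ∈ Metric.ball y ε, ∃ b ∈ Metric.ball y ε, a ≠ b := by
      refine ⟨y, Metric.mem_ball_self hε, y + v, ?_, ?_⟩
      · rw [Metric.mem_ball, dist_eq_norm, add_sub_cancel_left, hv]
        linarith
      · intro h
        have : v = 0 := by simpa using h
        rw [this, norm_zero] at hv
        linarith
    have h2 : IsPreconnected (k '' Metric.ball y ε) :=
      ((convex_ball y ε).isPreconnected).image _ (hk.mono hball)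
    have h3 := htd _ (by
      rintro _ ⟨z, hz, rfl⟩
      exact hkB (hball hz)) h2
    exact hab (hinj (hball ha) (hball hb) (congrArg f (h3 ⟨a, ha, rfl⟩ ⟨b, hb, rfl⟩)))
  refine ⟨h1, ?_, ?_⟩
  · intro htd
    obtain ⟨O, k, hO, hOne, hk, hkB, hinj⟩ := Run7.h379.main hn2 hOD hne A hA hcov φ hφ
      (Or.inr htd) hcount
    exact ⟨O, k, hO, hOne, hk, fun y hy => hkB hy, hinj⟩
  · rintro (h3 | htd) hCD
    · subst h3
      exact h1 (Run7.h379.CD.td hCD)
    · obtain ⟨O, k, hO, hOne, hk, hkB, hinj⟩ := Run7.h379.main hn2 hOD hne A hA hcov φ hφ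
        (Or.inr htd) hcount
      exact Run7.h379.main_dim hO hOne hk hkB hinj hCD

end Pool.Agent.Results.MP_5b12c2_an.CountableLeafSections
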